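import Pool.Agent.W717.UR.Stm

set_option autoImplicit false

namespace Pool.Agent.W696.UR

open Pool.Agent.W717.UR

theorem block_sum {a : ℕ → ℝ} {N : ℕ} {d : ℝ} (ha : ∀ n, 0 ≤ a n)
    (h : ∀ m : ℕ, ∃ n : ℕ, m ≤ n ∧ n ≤ m + N ∧ d ≤ a n) (q : ℕ) :
    q * d ≤ ∑ n ∈ Finset.range (q * (N + 1)), a n := by
  induction q with
  | zero => simp
  | succ q ih =>
    obtain ⟨n, h1, h2, h3⟩ := h (q * (N + 1))
    have e : (q + 1) * (N + 1) = q * (N + 1) + (N + 1) := by ring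
    rw [e, Finset.sum_range_add]
    have h4 : a n ≤ ∑ x ∈ Finset.range (N + 1), a (q * (N + 1) + x) := by
      have := Finset.single_le_sum (f := fun x => a (q * (N + 1) + x))
        (s := Finset.range (N + 1)) (fun x _ => ha _) (a := n - q * (N + 1))
        (Finset.mem_range.2 (by omega))
      simpa [Nat.add_sub_cancel' h1] using this
    push_cast
    linarith

theorem t_LOW (hAdm : S_ADM) : S_LOW := by
  intro y x R hR hy L h hh hU hS
  by_contra hne
  set g0 : ℤ → ℝ := fun m => (y m : ℝ) with hg0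
  set c : ℝ := |L g0| with hc
  have hc0 : 0 < c := abs_pos.2 hne
  have hCyl : Cyl y 0 g0 := by
    constructor
    · intro n
      rcases hy n with h | h | h <;> simp [hg0, h]
    · intro n n' h
      have := h 0 (by simp)
      simp only [add_zero] at this
      simp [hg0, this]
  have hA0 := hAdm y x R hR 0 g0 hCyl 0 le_rfl
  obtain ⟨N, hN⟩ := hU (c / 2) (by linarith)
  have hblk : ∀ m : ℕ, ∃ n : ℕ, m ≤ n ∧ n ≤ m + N ∧
      c ^ 2 / 4 ≤ (L (fun m => (y (m + n) : ℝ))) ^ 2 := by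
    intro m
    obtain ⟨n, h1, h2, h3⟩ := hN m
    refine ⟨n, h1, h2, ?_⟩
    have h4 := h3 g0 hA0
    have h5 : c / 2 ≤ |L (fun m => g0 (m + n))| := by
      have h6 := abs_sub_abs_le_abs_sub (L g0) (L (fun m => g0 (m + n)))
      rw [abs_sub_comm] at h6
      linarith
    have h7 : (c / 2) ^ 2 ≤ |L (fun m => g0 (m + n))| ^ 2 :=
      pow_le_pow_left₀ (by linarith) h5 2
    rw [sq_abs] at h7
    have h8 : (c / 2) ^ 2 = c ^ 2 / 4 := by ring
    rw [h8] at h7
    exact h7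
  have hN1 : (0 : ℝ) < (N : ℝ) + 1 := by positivity
  obtain ⟨K0, hK0⟩ := hS (c ^ 2 / (16 * ((N : ℝ) + 1))) (by positivity)
  set K := max K0 (N + 1) with hK
  have h1 := hK0 K (le_max_left _ _)
  have h2 : N + 1 ≤ h K := le_trans (le_max_right _ _) (hh.id_le K)
  set q := h K / (N + 1) with hq
  have q1 : 1 ≤ q := (Nat.one_le_div_iff (by omega)).2 h2
  have q2 : q * (N + 1) ≤ h K := Nat.div_mul_le_self _ _
  have q3 : h K < (q + 1) * (N + 1) := by
    have := Nat.lt_succ_iff.1 (Nat.lt_succ_self q)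
    rw [hq]
    exact Nat.lt_mul_of_div_lt (Nat.lt_succ_self _) (by omega)
  have h3 := block_sum (a := fun n => (L (fun m => (y (m + n) : ℝ))) ^ 2)
    (fun n => sq_nonneg _) hblk q
  have h4 : ∑ n ∈ Finset.range (q * (N + 1)), (L (fun m => (y (m + n) : ℝ))) ^ 2 ≤
      ∑ n ∈ Finset.range (h K), (L (fun m => (y (m + n) : ℝ))) ^ 2 :=
    Finset.sum_le_sum_of_subset_of_nonneg (Finset.range_subset_range.2 q2)
      (fun _ _ _ => sq_nonneg _)
  have h5 : (q : ℝ) * (c ^ 2 / 4) ≤ c ^ 2 / (16 * ((N : ℝ) + 1)) * h K := by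
    linarith
  have h6 : (h K : ℝ) ≤ ((q : ℝ) + 1) * ((N : ℝ) + 1) := by exact_mod_cast q3.le
  have h7 : c ^ 2 / (16 * ((N : ℝ) + 1)) * h K ≤ c ^ 2 / 16 * ((q : ℝ) + 1) := by
    have : c ^ 2 / (16 * ((N : ℝ) + 1)) * (((q : ℝ) + 1) * ((N : ℝ) + 1)) =
      c ^ 2 / 16 * ((q : ℝ) + 1) := by
      field_simp
    rw [← this]
    exact mul_le_mul_of_nonneg_left h6 (by positivity)
  have q1' : (1 : ℝ) ≤ q := by exact_mod_cast q1
  have hc2 : 0 < c ^ 2 := by positivity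
  nlinarith

end Pool.Agent.W696.UR
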