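import Pool.Agent.W717.UR.Stm

set_option autoImplicit false

namespace Pool.Agent.W696.UR

open Pool.Agent.W717.UR

theorem bb_step {G N : ℕ → ℕ} {e : ℕ → ℕ → ℤ} (hP : Par G N e) (k : ℕ) (i : ℤ) (h0 : 0 ≤ i)
    (h1 : i < hh G N k) : bb G N e (k + 1) ((hh G N k : ℤ) + 1 + i) = bb G N e k i := by
  have hG := hP.hG k
  have h2 : 2 * (hh G N k + 1) ≤ G k * (hh G N k + 1) := Nat.mul_le_mul_right _ (by omega)
  have h3 : (2 * (hh G N k + 1) : ℤ) ≤ ((G k * (hh G N k + 1) : ℕ) : ℤ) := by exact_mod_cast h2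
  rw [bb, if_pos ⟨by omega, by omega⟩]
  congr 1
  have : (hh G N k : ℤ) + 1 + i = i + ((hh G N k + 1 : ℕ) : ℤ) := by push_cast; ring
  rw [this, Int.add_emod_right]
  exact Int.emod_eq_of_lt h0 (by push_cast; omega)

theorem bb_up {G N : ℕ → ℕ} {e : ℕ → ℕ → ℤ} (hP : Par G N e)
    (hB : ∀ k, k ≤ aa G N k ∧ aa G N k + k < hh G N k ∧ hh G N k < hh G N (k + 1))
    (k : ℕ) (n : ℤ) (h0 : 0 ≤ n + aa G N k) (h1 : n + aa G N k < hh G N k) (m : ℕ) :
    (0 ≤ n + aa G N (k + m) ∧ n + aa G N (k + m) < hh G N (k + m)) ∧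
      bb G N e (k + m) (n + aa G N (k + m)) = bb G N e k (n + aa G N k) := by
  induction m with
  | zero => exact ⟨⟨h0, h1⟩, rfl⟩
  | succ m ih =>
    obtain ⟨⟨h2, h3⟩, h4⟩ := ih
    have ha : aa G N (k + (m + 1)) = aa G N (k + m) + hh G N (k + m) + 1 := rfl
    have hG := hP.hG (k + m)
    have h5 : 2 * (hh G N (k + m) + 1) ≤ G (k + m) * (hh G N (k + m) + 1) :=
      Nat.mul_le_mul_right _ (by omega)
    have hh1 : hh G N (k + (m + 1)) =
      G (k + m) * (hh G N (k + m) + 1) + N (k + m) * hh G N (k + m) := rfl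
    refine ⟨⟨?_, ?_⟩, ?_⟩
    · rw [ha]; push_cast; omega
    · have h6 : 2 * (hh G N (k + m) + 1) ≤ hh G N (k + (m + 1)) := by
        rw [hh1]; exact le_trans h5 (Nat.le_add_right _ _)
      have h7 : ((2 * (hh G N (k + m) + 1) : ℕ) : ℤ) ≤ (hh G N (k + (m + 1)) : ℤ) := by
        exact_mod_cast h6
      push_cast at h7
      rw [ha]; push_cast; omega
    · rw [← h4, ← bb_step hP (k + m) _ h2 h3, ha]
      congr 1
      push_cast
      ring

theorem bb_eq {G N : ℕ → ℕ} {e : ℕ → ℕ → ℤ} (hP : Par G N e)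
    (hB : ∀ k, k ≤ aa G N k ∧ aa G N k + k < hh G N k ∧ hh G N k < hh G N (k + 1))
    (k l : ℕ) (n : ℤ) (h0 : 0 ≤ n + aa G N k) (h1 : n + aa G N k < hh G N k)
    (h2 : 0 ≤ n + aa G N l) (h3 : n + aa G N l < hh G N l) :
    bb G N e l (n + aa G N l) = bb G N e k (n + aa G N k) := by
  rcases le_total k l with h | h
  · obtain ⟨m, rfl⟩ := Nat.exists_eq_add_of_le h
    exact (bb_up hP hB k n h0 h1 m).2
  · obtain ⟨m, rfl⟩ := Nat.exists_eq_add_of_le h
    exact ((bb_up hP hB l n h2 h3 m).2).symm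

theorem t_YB (hBasic : S_BASIC) : S_YB := by
  intro G N e hP k i h0 h1
  obtain ⟨hB, -, -⟩ := hBasic G N e hP
  unfold YY
  set K := (i - (aa G N k : ℤ)).natAbs + 1 with hK
  obtain ⟨b1, b2, -⟩ := hB K
  have h2 : bb G N e K (i - aa G N k + aa G N K) = bb G N e k (i - aa G N k + aa G N k) := by
    apply bb_eq hP hB k K (i - aa G N k)
    · omega
    · omega
    · omega
    · omega
  rw [h2]
  congr 1
  ring

end Pool.Agent.W696.UR
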