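import Pool.Agent.W717.UR.Stm

set_option autoImplicit false

namespace Pool.Agent.W696.UR

open Pool.Agent.W717.UR

theorem sum_blocks (f : ℕ → ℤ) (h N : ℕ) : ∑ i ∈ Finset.range (N * h), f i =
    ∑ q ∈ Finset.range N, ∑ j ∈ Finset.range h, f (q * h + j) := by
  induction N with
  | zero => simp
  | succ N ih =>
    rw [Finset.sum_range_succ, ← ih, Nat.succ_mul, Finset.sum_range_add]

theorem bb_second {G N : ℕ → ℕ} {e : ℕ → ℕ → ℤ} (k q j : ℕ) (hq : q < N k)
    (hj : j < hh G N k) :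
    bb G N e (k + 1) (((G k * (hh G N k + 1) + (q * hh G N k + j) : ℕ) : ℤ)) =
      e k q * bb G N e k j := by
  have h1 : q * hh G N k + j < N k * hh G N k := by
    calc q * hh G N k + j < q * hh G N k + hh G N k := by omega
      _ = (q + 1) * hh G N k := by ring
      _ ≤ N k * hh G N k := Nat.mul_le_mul_right _ hq
  have h2 : hh G N (k + 1) = G k * (hh G N k + 1) + N k * hh G N k := rfl
  have e1 : ((G k * (hh G N k + 1) + (q * hh G N k + j) : ℕ) : ℤ) -
      ((G k * (hh G N k + 1) : ℕ) : ℤ) = ((q * hh G N k + j : ℕ) : ℤ) := by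
    push_cast; ring
  rw [bb, if_neg (by push_cast; intro h; have := h.2; nlinarith [Nat.zero_le (q * hh G N k + j)]),
    if_pos ⟨by push_cast; nlinarith [Nat.zero_le (q * hh G N k + j)], by
      rw [h2]; exact_mod_cast Nat.add_lt_add_left h1 _⟩, e1]
  have hpos : 0 < hh G N k := by omega
  have h3 : ((q * hh G N k + j : ℕ) : ℤ) / (hh G N k : ℕ) = (q : ℤ) := by
    have : (q * hh G N k + j) / hh G N k = q := by
      rw [Nat.add_comm, Nat.add_mul_div_right _ _ hpos, Nat.div_eq_of_lt hj, Nat.zero_add]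
    exact_mod_cast this
  have h4 : ((q * hh G N k + j : ℕ) : ℤ) % (hh G N k : ℕ) = (j : ℤ) := by
    have : (q * hh G N k + j) % hh G N k = j := by
      rw [Nat.add_comm, Nat.add_mul_mod_self_right, Nat.mod_eq_of_lt hj]
    exact_mod_cast this
  rw [h3, h4]
  simp

theorem eng_step {G N : ℕ → ℕ} {e : ℕ → ℕ → ℤ} (hP : Par G N e) (k : ℕ) :
    (N k : ℤ) * ∑ i ∈ Finset.range (hh G N k), bb G N e k i * bb G N e k i ≤
      ∑ i ∈ Finset.range (hh G N (k + 1)), bb G N e (k + 1) i * bb G N e (k + 1) i := by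
  have h2 : hh G N (k + 1) = G k * (hh G N k + 1) + N k * hh G N k := rfl
  rw [h2, Finset.sum_range_add]
  have h3 : ∑ x ∈ Finset.range (N k * hh G N k),
      bb G N e (k + 1) ((G k * (hh G N k + 1) + x : ℕ) : ℤ) *
        bb G N e (k + 1) ((G k * (hh G N k + 1) + x : ℕ) : ℤ) =
      (N k : ℤ) * ∑ i ∈ Finset.range (hh G N k), bb G N e k i * bb G N e k i := by
    rw [sum_blocks (fun x => bb G N e (k + 1) ((G k * (hh G N k + 1) + x : ℕ) : ℤ) *
        bb G N e (k + 1) ((G k * (hh G N k + 1) + x : ℕ) : ℤ))]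
    rw [Finset.sum_congr rfl (g := fun _ => ∑ i ∈ Finset.range (hh G N k),
      bb G N e k i * bb G N e k i)]
    · simp
    · intro q hq
      refine Finset.sum_congr rfl fun j hj => ?_
      rw [bb_second k q j (Finset.mem_range.1 hq) (Finset.mem_range.1 hj)]
      rcases hP.he k q with h | h <;> rw [h] <;> ring
  rw [h3]
  have h4 : 0 ≤ ∑ x ∈ Finset.range (G k * (hh G N k + 1)),
      bb G N e (k + 1) (x : ℤ) * bb G N e (k + 1) (x : ℤ) :=
    Finset.sum_nonneg fun x _ => mul_self_nonneg _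
  linarith

theorem t_ENG : S_ENG := by
  intro G N e hP k
  have key : ∀ k : ℕ, (1 - 2 / 100 * (1 - (1 / 2 : ℝ) ^ k)) * hh G N k ≤
      ((∑ i ∈ Finset.range (hh G N k), bb G N e k i * bb G N e k i : ℤ) : ℝ) := by
    intro k
    induction k with
    | zero => simp [hh, bb]
    | succ k ih =>
      have h1 := eng_step hP k
      have h2 : ((N k : ℤ) * ∑ i ∈ Finset.range (hh G N k), bb G N e k i * bb G N e k i : ℤ) ≤
        ((∑ i ∈ Finset.range (hh G N (k + 1)), bb G N e (k + 1) i * bb G N e (k + 1) i : ℤ) : ℝ) := by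
        exact_mod_cast h1
      refine le_trans ?_ h2
      set E : ℝ := ((∑ i ∈ Finset.range (hh G N k), bb G N e k i * bb G N e k i : ℤ) : ℝ) with hE
      have h3 : (((N k : ℤ) * ∑ i ∈ Finset.range (hh G N k), bb G N e k i * bb G N e k i : ℤ) : ℝ)
        = N k * E := by rw [hE]; push_cast; ring
      rw [h3]
      have h4 := hP.hlen k
      set d : ℝ := (1 / 2 : ℝ) ^ k with hd
      have hd0 : 0 < d := by positivity
      have hd1 : d ≤ 1 := pow_le_one₀ (by norm_num) (by norm_num)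
      have h5 : ((hh G N (k + 1) : ℕ) : ℝ) = ((G k * (hh G N k + 1) : ℕ) : ℝ) + N k * hh G N k := by
        have : hh G N (k + 1) = G k * (hh G N k + 1) + N k * hh G N k := rfl
        rw [this]; push_cast; ring
      have h6 : ((hh G N (k + 1) : ℕ) : ℝ) ≤ (1 + 1 / 100 * d) * (N k * hh G N k) := by
        rw [h5]; nlinarith
      have hX : (0 : ℝ) ≤ N k * hh G N k := by positivity
      have h7 : N k * ((1 - 2 / 100 * (1 - d)) * hh G N k) ≤ N k * E :=
        mul_le_mul_of_nonneg_left ih (by positivity)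
      refine le_trans ?_ h7
      have e1 : (1 / 2 : ℝ) ^ (k + 1) = d / 2 := by rw [hd]; ring
      rw [e1]
      have h8 : (1 - 2 / 100 * (1 - d / 2)) * ((hh G N (k + 1) : ℕ) : ℝ) ≤
        (1 - 2 / 100 * (1 - d / 2)) * ((1 + 1 / 100 * d) * (N k * hh G N k)) :=
        mul_le_mul_of_nonneg_left h6 (by linarith)
      refine le_trans h8 ?_
      have h9 : (1 - 2 / 100 * (1 - d / 2)) * (1 + 1 / 100 * d) ≤ 1 - 2 / 100 * (1 - d) := by
        nlinarith
      calc (1 - 2 / 100 * (1 - d / 2)) * ((1 + 1 / 100 * d) * (N k * hh G N k))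
          = ((1 - 2 / 100 * (1 - d / 2)) * (1 + 1 / 100 * d)) * (N k * hh G N k) := by ring
        _ ≤ (1 - 2 / 100 * (1 - d)) * (N k * hh G N k) := mul_le_mul_of_nonneg_right h9 hX
        _ = N k * ((1 - 2 / 100 * (1 - d)) * hh G N k) := by ring
  refine le_trans ?_ (key k)
  refine mul_le_mul_of_nonneg_right ?_ (by positivity)
  have hd0 : (0 : ℝ) < (1 / 2) ^ k := by positivity
  linarith

end Pool.Agent.W696.UR
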